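import Pool.Agent.H64.AK.Defs

/-!
# Module IMG: Hausdorff images of compact spaces with Lindelof function spaces
-/

set_option autoImplicit false

open Topology Set

namespace Pool.Agent.H29.AK

open Pool.Agent.H20.SL Pool.Agent.H64.AK

theorem img : T_IMG := by
  intro X X₁ _ _ _ _ g hg hsurj hL
  have : CompactSpace X₁ := by
    constructor
    rw [← hsurj.range_eq]
    exact isCompact_range hg
  have hclosed : IsClosedMap g := hg.isClosedMap
  have hquot : IsQuotientMap g := hclosed.isQuotientMap hg hsurj
  let Φ : Cp X₁ → Cp X := fun h => ⟨h.1 ∘ g, h.2.comp hg⟩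
  have hΦc : Continuous Φ := by
    refine Continuous.subtype_mk ?_ _
    refine continuous_pi fun x => ?_
    exact (continuous_apply (g x)).comp continuous_subtype_val
  have hΦinj : Function.Injective Φ := by
    intro h h' hE
    apply Subtype.ext
    funext y
    obtain ⟨x, rfl⟩ := hsurj y
    exact congrFun (congrArg Subtype.val hE) x
  have hrange : Set.range Φ = {f : Cp X | ∀ x y, g x = g y → f.1 x = f.1 y} := by
    ext f
    constructor
    · rintro ⟨h, rfl⟩ x y hxy
      exact congrArg h.1 hxy
    · intro hf
      refine ⟨⟨fun y => f.1 (Function.surjInv hsurj y), ?_⟩, ?_⟩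
      · rw [hquot.continuous_iff]
        have h1 : (fun y => f.1 (Function.surjInv hsurj y)) ∘ g = f.1 := by
          funext x
          exact hf _ _ (Function.surjInv_eq hsurj (g x))
        rw [h1]
        exact f.2
      · apply Subtype.ext
        funext x
        exact hf _ _ (Function.surjInv_eq hsurj (g x))
  have hclosedR : IsClosed (Set.range Φ) := by
    rw [hrange]
    have h2 : {f : Cp X | ∀ x y, g x = g y → f.1 x = f.1 y} =
        ⋂ x, ⋂ y, ⋂ (_ : g x = g y), {f : Cp X | f.1 x = f.1 y} := by
      ext f
      simp
    rw [h2]
    refine isClosed_iInter fun x => isClosed_iInter fun y => isClosed_iInter fun _ => ?_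
    exact isClosed_eq ((continuous_apply x).comp continuous_subtype_val)
      ((continuous_apply y).comp continuous_subtype_val)
  have hind : IsInducing Φ := by
    -- the composition with the inclusion in the product is inducing
    have h3 : IsInducing (fun h : Cp X₁ => (h.1 ∘ g : X → ℝ)) := by
      have h4 : IsInducing (fun h : Cp X₁ => (h.1 : X₁ → ℝ)) := IsInducing.subtypeVal
      have h5 : IsInducing (fun h : X₁ → ℝ => (h ∘ g : X → ℝ)) := by
        constructor
        apply le_antisymm
        · exact continuous_iff_le_induced.1 (continuous_pi fun x => continuous_apply (g x))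
        · refine le_iInf fun y => ?_
          obtain ⟨x, rfl⟩ := hsurj y
          have h6 := induced_mono (g := fun h : X₁ → ℝ => (h ∘ g : X → ℝ))
            (iInf_le (fun x : X => TopologicalSpace.induced (fun k : X → ℝ => k x) inferInstance) x)
          rw [induced_compose] at h6
          exact h6
      exact h5.comp h4
    exact IsInducing.of_comp hΦc continuous_subtype_val h3
  have hemb : IsClosedEmbedding Φ := ⟨⟨hind, hΦinj⟩, hclosedR⟩
  have hLX : LindelofSpace (Cp X₁) := hemb.LindelofSpace
  refine ⟨inferInstance, ?_⟩
  refine emb (X := X₁) {h : X₁ → ℝ | Continuous h} ?_ (fun f hf => hf) ?_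
  · exact isLindelof_iff_lindelofSpace.2 (inferInstance : LindelofSpace (Cp X₁))
  · intro x y hxy
    obtain ⟨f, hf0, hf1, -⟩ := exists_continuous_zero_one_of_isClosed (X := X₁)
      (isClosed_singleton (x := x)) (isClosed_singleton (x := y)) (by simpa using hxy)
    refine ⟨f, f.continuous, ?_⟩
    rw [hf0 (Set.mem_singleton x), hf1 (Set.mem_singleton y)]
    simp

end Pool.Agent.H29.AK
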