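import Pool.Agent.H64.AK.Defs

/-!
# Module WID: Martin's axiom and the finite branching condition imply wideness
-/

set_option autoImplicit false

open Cardinal Set

namespace Pool.Agent.H29.AK

open Pool.Agent.H20.SL Pool.Agent.H64.AK

section
variable {T : Type} [PartialOrder T] {S : Set T}

theorem isMin_val (hd : ∀ a ∈ S, ∀ b, b ≤ a → b ∈ S) {u : S} (hu : IsMin u) : IsMin u.1 := by
  intro b hb
  have h1 : (⟨b, hd u.1 u.2 b hb⟩ : S) ≤ u := hb
  exact hu h1

theorem isMin_of_val {u : S} (hu : IsMin u.1) : IsMin u := fun b hb => hu (b := b.1) hb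

theorem covBy_val (hd : ∀ a ∈ S, ∀ b, b ≤ a → b ∈ S) {c u : S} (h : c ⋖ u) : c.1 ⋖ u.1 := by
  refine ⟨h.1, fun x hcx hxu => ?_⟩
  exact h.2 (c := ⟨x, hd u.1 u.2 x hxu.le⟩) hcx hxu

theorem covBy_of_val {c u : S} (h : c.1 ⋖ u.1) : c ⋖ u :=
  ⟨h.1, fun x hcx hxu => h.2 (c := x.1) hcx hxu⟩

end

theorem wid (hFIL : T_FIL) : T_WID := by
  intro hMA T _ h hI hFB Y hY
  by_contra hcon
  push Not at hcon
  have h1 : ℵ₁ ≤ #Y := by
    rw [← succ_aleph0]
    refine Order.succ_le_of_lt ?_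
    rw [← not_le, Cardinal.le_aleph0_iff_set_countable]
    exact hY
  obtain ⟨Y', hY'Y, hY'⟩ := Cardinal.le_mk_iff_exists_subset.1 h1
  let W : Set T := ⋃ y : Y', Set.Iic y.1
  have hWmem : ∀ x, x ∈ W ↔ ∃ y ∈ Y', x ≤ y := by
    intro x
    simp [W]
  have hd : ∀ a ∈ W, ∀ b, b ≤ a → b ∈ W := by
    intro a ha b hb
    rw [hWmem] at ha ⊢
    obtain ⟨y, hy, hay⟩ := ha
    exact ⟨y, hy, hb.trans hay⟩
  have hcardW : #W ≤ ℵ₁ := by
    have h2 : #W ≤ #Y' * ⨆ y : Y', #(Set.Iic y.1) := Cardinal.mk_iUnion_le _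
    refine h2.trans ?_
    have h3 : (⨆ y : Y', #(Set.Iic y.1)) ≤ ℵ₀ := by
      refine ciSup_le' fun y => ?_
      exact Cardinal.le_aleph0_iff_set_countable.2 (hI y.1)
    calc #Y' * (⨆ y : Y', #(Set.Iic y.1)) ≤ ℵ₁ * ℵ₀ := mul_le_mul' hY'.le h3
      _ ≤ ℵ₁ * ℵ₁ := mul_le_mul' le_rfl (Cardinal.aleph0_le_aleph 1)
      _ = ℵ₁ := Cardinal.mul_eq_self (Cardinal.aleph0_le_aleph 1)
  have hY'unc : ¬ Y'.Countable := by
    rw [← Cardinal.le_aleph0_iff_set_countable, hY', not_le]
    exact Cardinal.aleph0_lt_aleph_one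
  have hWunc : ¬ Countable W := by
    intro hc
    apply hY'unc
    have h4 : W.Countable := Set.countable_coe_iff.1 hc
    refine h4.mono fun y hy => ?_
    rw [hWmem]
    exact ⟨y, hy, le_rfl⟩
  have hWtree : IsTree W := h.subtype W
  by_cases hch : ∀ C : Set W, IsChain (· ≤ ·) C → C.Countable
  · have hSmall : Pool.Agent.H64.AK.Small W := by
      refine ⟨hWtree, hcardW, hWunc, ?_, ?_, hch⟩
      · intro t
        have h5 : (Set.Iic t : Set W) = Subtype.val ⁻¹' (Set.Iic t.1) := rfl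
        rw [h5]
        exact (hI t.1).preimage Subtype.val_injective
      · intro c
        have h6 : {u : W | Suc c u} ⊆
            Subtype.val ⁻¹' {u | Suc (c.map Subtype.val) u ∧ ∃ y ∈ Y, u ≤ y} := by
          intro u hu
          obtain ⟨y, hy, huy⟩ := (hWmem u.1).1 u.2
          refine ⟨?_, y, hY'Y hy, huy⟩
          cases c with
          | none => exact isMin_val hd hu
          | some c => exact covBy_val hd hu
        exact ((hcon (c.map Subtype.val)).preimage Subtype.val_injective).mono h6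
    obtain ⟨V, hV1, hV2, hV3⟩ := hFIL hMA W hSmall
    apply hV1
    have h7 : (Subtype.val '' V : Set T).Countable := by
      apply hFB
      · rintro _ ⟨v, hv, rfl⟩ b hb
        exact ⟨⟨b, hd v.1 v.2 b hb⟩, hV2 v hv _ hb, rfl⟩
      · rintro _ ⟨w, hw, rfl⟩
        refine ((hV3 (some w)).image Subtype.val).subset ?_
        rintro _ ⟨hwu, u, hu, rfl⟩
        exact ⟨u, ⟨covBy_of_val hwu, hu⟩, rfl⟩
      · refine ((hV3 none).image Subtype.val).subset ?_
        rintro _ ⟨⟨u, hu, rfl⟩, hmin⟩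
        exact ⟨u, ⟨isMin_of_val hmin, hu⟩, rfl⟩
    exact (h7.preimage Subtype.val_injective).mono (Set.subset_preimage_image _ _)
  · push Not at hch
    obtain ⟨C, hC, hCunc⟩ := hch
    apply hCunc
    let V : Set T := {x | ∃ c ∈ C, x ≤ c.1}
    have hcomp : ∀ x ∈ V, ∀ y ∈ V, x ≤ y ∨ y ≤ x := by
      rintro x ⟨c, hc, hxc⟩ y ⟨c', hc', hyc'⟩
      rcases hC.total hc hc' with hcc | hcc
      · exact h.comp x y c'.1 (hxc.trans hcc) hyc'
      · exact h.comp x y c.1 hxc (hyc'.trans hcc)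
    have h8 : V.Countable := by
      apply hFB
      · rintro a ⟨c, hc, hac⟩ b hb
        exact ⟨c, hc, hb.trans hac⟩
      · intro w _
        refine Set.Subsingleton.finite ?_
        rintro u ⟨hwu, hu⟩ u' ⟨hwu', hu'⟩
        rcases hcomp u hu u' hu' with hle | hle
        · rcases hle.eq_or_lt with hE | hlt
          · exact hE
          · exact absurd hlt (hwu'.2 hwu.1)
        · rcases hle.eq_or_lt with hE | hlt
          · exact hE.symm
          · exact absurd hlt (hwu.2 hwu'.1)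
      · refine Set.Subsingleton.finite ?_
        rintro u ⟨hu, hum⟩ u' ⟨hu', hum'⟩
        rcases hcomp u hu u' hu' with hle | hle
        · exact le_antisymm hle (hum' hle)
        · exact le_antisymm (hum hle) hle
    have h9 : (Subtype.val ⁻¹' V : Set W).Countable := h8.preimage Subtype.val_injective
    refine h9.mono fun c hc => ?_
    exact ⟨c, hc, le_rfl⟩

end Pool.Agent.H29.AK
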